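import Pool.Agent.helper71.CL.Spec

/-!
# Project cl, module TST: the good parameter
-/

set_option autoImplicit false

open MeasureTheory Set Filter Topology
open scoped ENNReal
open Pool.Agent.helper81.CW

noncomputable section

namespace Pool.Agent.CL

lemma TST_num {n : ℕ} (hn : 1 ≤ n) {t : ℝ} (ht0 : 0 ≤ t) (ht : t ≤ 2 * n) :
    2 + 2 * √(Real.pi * t) ≤ 8 * √(n : ℝ) := by
  have h1 : (1 : ℝ) ≤ √(n : ℝ) := by
    rw [Real.one_le_sqrt]
    exact_mod_cast hn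
  have h2 : √(Real.pi * t) ≤ 3 * √(n : ℝ) := by
    rw [show (3 : ℝ) * √(n : ℝ) = √(9 * n) by
      rw [Real.sqrt_mul (by norm_num)]
      congr 1
      rw [show (9 : ℝ) = 3 ^ 2 by norm_num, Real.sqrt_sq (by norm_num)]]
    apply Real.sqrt_le_sqrt
    have hpi : Real.pi ≤ 4 := Real.pi_le_four
    have hn0 : (0 : ℝ) ≤ n := Nat.cast_nonneg n
    nlinarith [Real.pi_pos]
  linarith

lemma TST_aux {n : ℕ} {C : Set (E n)} {t a : ℝ} (hLAY : LAY_stmt) (hcomp : IsCompact C)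
    (hne : C.Nonempty) (hfin : VV C 1 ≠ ∞) (ht : 0 < t) {M : ℝ≥0∞}
    (haV : ∀ ρ : ℝ, 0 ≤ ρ → VV C ρ ≤ ENNReal.ofReal (Real.exp (a * (ρ - 1))) * VV C 1)
    (hM : ∫⁻ ρ in Ioi (0 : ℝ), ENNReal.ofReal (2 * t * ρ * Real.exp (t * (1 - ρ ^ 2)) *
      Real.exp (a * (ρ - 1))) ≤ M) : II C t ≤ M * VV C 1 := by
  refine (hLAY n C t hcomp hne ht).trans ?_
  calc ∫⁻ ρ in Ioi (0 : ℝ), ENNReal.ofReal (2 * t * ρ * Real.exp (t * (1 - ρ ^ 2))) * VV C ρ
      ≤ ∫⁻ ρ in Ioi (0 : ℝ), ENNReal.ofReal (2 * t * ρ * Real.exp (t * (1 - ρ ^ 2)) *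
        Real.exp (a * (ρ - 1))) * VV C 1 := by
        apply lintegral_mono_ae
        filter_upwards [ae_restrict_mem measurableSet_Ioi] with ρ hρ
        have hρ0 : (0 : ℝ) ≤ ρ := le_of_lt hρ
        have h0 : 0 ≤ 2 * t * ρ * Real.exp (t * (1 - ρ ^ 2)) := by positivity
        rw [ENNReal.ofReal_mul h0,
          mul_assoc (ENNReal.ofReal (2 * t * ρ * Real.exp (t * (1 - ρ ^ 2))))]
        exact mul_le_mul_right (haV ρ hρ0) _
    _ = (∫⁻ ρ in Ioi (0 : ℝ), ENNReal.ofReal (2 * t * ρ * Real.exp (t * (1 - ρ ^ 2)) *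
        Real.exp (a * (ρ - 1)))) * VV C 1 := lintegral_mul_const' _ _ hfin
    _ ≤ M * VV C 1 := by gcongr

theorem TST (hVON : VON_stmt) (hSLP : SLP_stmt) (hLAY : LAY_stmt) (hGAU : GAU_stmt) : TST_stmt := by
  intro n C hn hC
  obtain ⟨hV1, hV0, hVf⟩ := hVON n C hC
  obtain ⟨a, ha0, ha4, haV⟩ := hSLP n C hC
  have hcomp : IsCompact C := hC.2.1
  have hne : C.Nonempty := hC.1
  rcases ha0.eq_or_lt with ha | ha
  · subst ha
    have hn1 : (1 : ℝ) ≤ n := by exact_mod_cast hn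
    refine ⟨1, one_pos, by linarith, ?_⟩
    have h1 := TST_aux (a := 0) (M := ENNReal.ofReal 3) hLAY hcomp hne (hVf 1).ne one_pos haV
      (by simpa using hGAU.2)
    rw [← hV1]
    refine h1.trans ?_
    have h3 : (1 : ℝ) ≤ √(n : ℝ) := by
      rw [Real.one_le_sqrt]
      exact hn1
    have h4 : (3 : ℝ) ≤ 8 * √(n : ℝ) := by linarith
    exact mul_le_mul_left (ENNReal.ofReal_le_ofReal h4) _
  · refine ⟨a / 2, by positivity, by linarith, ?_⟩
    have h1 := TST_aux (a := a) (M := ENNReal.ofReal (2 + 2 * √(Real.pi * (a / 2)))) hLAY hcomp hne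
      (hVf 1).ne (t := a / 2) (by positivity) haV
      (by
        have h2 := hGAU.1 (a / 2) (by positivity)
        rw [show 2 * (a / 2) = a by ring] at h2 ⊢
        exact h2)
    rw [← hV1]
    refine h1.trans ?_
    exact mul_le_mul_left (ENNReal.ofReal_le_ofReal (TST_num hn (by positivity) (by linarith))) _

end Pool.Agent.CL
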